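import Pool.Agent.PDM.Stmts
import Pool.Agent.Helper81_PDN.LNK

/-!
# PDM, row RM3: delete the vertices of degree three
-/

set_option autoImplicit false

namespace Pool.Agent.PDM.H25

open Pool.Agent.PDN Pool.Agent.PDN.H81

variable {V : Type}

theorem pre_ex (T : Tri V) {u w : V} (h : T.Adj u w) : ∃ v, T.f u v w := by
  obtain ⟨z, hz⟩ := h
  obtain ⟨w', hw'⟩ := T.opp hz
  exact ⟨w', T.cyc hw'⟩

/-- the link of a vertex of degree three -/
theorem lnk3 [Fintype V] (T : Tri V) {s x : V} (hs : T.deg s = 3) (h : T.Adj s x) :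
    ∃ y z, T.f s x y ∧ T.f s y z ∧ T.f s z x ∧ ∀ v, T.Adj s v ↔ v = x ∨ v = y ∨ v = z := by
  classical
  obtain ⟨y, h12⟩ := h
  obtain ⟨z, h23⟩ := f_adj T h12
  obtain ⟨n, h34⟩ := f_adj T h23
  have a1 : T.Adj s x := ⟨y, h12⟩
  have a2 : T.Adj s y := ⟨z, h23⟩
  have a3 : T.Adj s z := ⟨n, h34⟩
  have e12 : x ≠ y := by
    intro h
    subst h
    have := closed_all T (fun v => v = x) a1 rfl (by
      intro v w hv hf
      subst hv
      exact T.uniq hf h12)
    have hle := deg_le T s {x} (by simpa using this)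
    simp only [Finset.card_singleton] at hle
    omega
  have e23 : y ≠ z := by
    intro h
    subst h
    exact e12 (f_inj T h12 h23)
  have e13 : x ≠ z := by
    intro h
    subst h
    have := closed_all T (fun v => v = x ∨ v = y) a1 (Or.inl rfl) (by
      rintro v w (hv | hv) hf
      · subst hv
        exact Or.inr (T.uniq hf h12)
      · subst hv
        exact Or.inl (T.uniq hf h23))
    have hle := deg_le T s {x, y} (by simpa using this)
    have hc : ({x, y} : Finset V).card ≤ 2 := Finset.card_le_two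
    omega
  have hcard : ({x, y, z} : Finset V).card = 3 := by
    rw [Finset.card_insert_of_notMem (by simp [e12, e13]),
      Finset.card_insert_of_notMem (by simp [e23]), Finset.card_singleton]
  have hall := mem_of_card T s {x, y, z} (by
    intro v hv
    simp only [Finset.mem_insert, Finset.mem_singleton] at hv
    rcases hv with rfl | rfl | rfl
    · exact a1
    · exact a2
    · exact a3) (by rw [hcard, hs])
  have h5 := hall n (f_adj T h34)
  simp only [Finset.mem_insert, Finset.mem_singleton] at h5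
  have h51 : n = x := by
    rcases h5 with h | h | h
    · exact h
    · subst h
      exact absurd (f_inj T h12 h34) e13
    · subst h
      exact absurd (f_inj T h23 h34) e23
  subst h51
  refine ⟨y, z, h12, h23, h34, fun v => ⟨fun hv => ?_, ?_⟩⟩
  · simpa only [Finset.mem_insert, Finset.mem_singleton] using hall v hv
  · rintro (rfl | rfl | rfl)
    · exact a1
    · exact a2
    · exact a3

theorem conn_closed {T : Tri V} (hc : T.graph.Connected) (C : V → Prop) {s : V} (hs : C s)
    (hcl : ∀ v w, C v → T.Adj v w → C w) (w : V) : C w := by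
  have h := (SimpleGraph.reachable_iff_reflTransGen s w).1 (hc.preconnected s w)
  induction h with
  | refl => exact hs
  | tail _ hbc ih => exact hcl _ _ ih hbc

/-- two vertices of degree three are not adjacent -/
theorem nadj [Fintype V] (T : Tri V) (hc : T.graph.Connected) (h5 : 5 ≤ Fintype.card V) {s s' : V}
    (hs : T.deg s = 3) (hs' : T.deg s' = 3) : ¬ T.Adj s s' := by
  classical
  intro h
  obtain ⟨x, y, h1, h2, h3, hN⟩ := lnk3 T hs h
  -- around `s'`: `x → s → y`
  have g1 : T.f s' x s := T.cyc h1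
  have g2 : T.f s' s y := T.cyc (T.cyc h3)
  obtain ⟨y', z', k1, k2, k3, hN'⟩ := lnk3 T hs' (T.adj_symm h)
  have ey : y' = y := T.uniq k1 g2
  subst ey
  have ex : z' = x := f_inj T k3 g1
  subst ex
  have cl : ∀ v w, (v = s ∨ v = s' ∨ v = z' ∨ v = y') → T.Adj v w →
      (w = s ∨ w = s' ∨ w = z' ∨ w = y') := by
    rintro v w (rfl | rfl | rfl | rfl) hw
    · rcases (hN w).1 hw with rfl | rfl | rfl <;> simp
    · rcases (hN' w).1 hw with rfl | rfl | rfl <;> simp
    · -- around `x`: `y → s → s' → y`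
      refine closed_all T (fun w => w = s ∨ w = s' ∨ w = v ∨ w = y') (a := s)
        ⟨s', T.cyc (T.cyc h1)⟩ (Or.inl rfl) ?_ w hw
      rintro a b (rfl | rfl | rfl | rfl) hab
      · exact Or.inr (Or.inl (T.uniq hab (T.cyc (T.cyc h1))))
      · exact Or.inr (Or.inr (Or.inr (T.uniq hab (T.cyc (T.cyc k2)))))
      · exact absurd rfl (T.ne hab)
      · exact Or.inl (T.uniq hab (T.cyc h2))
    · refine closed_all T (fun w => w = s ∨ w = s' ∨ w = z' ∨ w = v) (a := s)
        ⟨z', T.cyc (T.cyc h2)⟩ (Or.inl rfl) ?_ w hw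
      rintro a b (rfl | rfl | rfl | rfl) hab
      · exact Or.inr (Or.inr (Or.inl (T.uniq hab (T.cyc (T.cyc h2)))))
      · exact Or.inl (T.uniq hab (T.cyc h3))
      · exact Or.inr (Or.inl (T.uniq hab (T.cyc k2)))
      · exact absurd rfl (T.ne hab)
  have hall := conn_closed hc _ (s := s) (Or.inl rfl) cl
  have h4 : Fintype.card V ≤ ({s, s', z', y'} : Finset V).card := by
    rw [← Finset.card_univ]
    refine Finset.card_le_card fun v _ => ?_
    simpa only [Finset.mem_insert, Finset.mem_singleton] using hall v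
  have h6 : ({s, s', z', y'} : Finset V).card ≤ 4 := Finset.card_le_four
  omega

/-- the faces of the inner triangulation -/
def f3 (T : Tri V) (u v w : {v : V // T.deg v ≠ 3}) : Prop :=
  T.f u v w ∨ ∃ s, T.deg s = 3 ∧ T.f u v s ∧ T.f u s w

theorem f3_adj (T : Tri V) {u v w : {v : V // T.deg v ≠ 3}} (h : f3 T u v w) : T.Adj u v := by
  rcases h with h | ⟨s, _, h, _⟩
  · exact ⟨_, h⟩
  · exact ⟨_, h⟩

theorem adj_f3 [Fintype V] (T : Tri V)
    (hn : ∀ s s', T.deg s = 3 → T.deg s' = 3 → ¬ T.Adj s s') {u v : {v : V // T.deg v ≠ 3}}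
    (h : T.Adj u v) : ∃ w, f3 T u v w := by
  obtain ⟨w, hw⟩ := h
  by_cases h3 : T.deg w = 3
  · obtain ⟨z, hz⟩ := f_adj T hw
    have hz3 : T.deg z ≠ 3 := fun h => hn w z h3 h ⟨_, T.cyc hz⟩
    exact ⟨⟨z, hz3⟩, Or.inr ⟨w, h3, hw, hz⟩⟩
  · exact ⟨⟨w, h3⟩, Or.inl hw⟩

/-- the inner triangulation -/
def tri3 [Fintype V] (T : Tri V)
    (hn : ∀ s s', T.deg s = 3 → T.deg s' = 3 → ¬ T.Adj s s') : Tri {v : V // T.deg v ≠ 3} where
  f := f3 T
  cyc := by
    rintro u v w (h | ⟨s, hs, h1, h2⟩)
    · exact Or.inl (T.cyc h)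
    · obtain ⟨y, z, k1, k2, k3, -⟩ := lnk3 T hs (x := w) ⟨_, T.cyc h2⟩
      have ey : y = u := T.uniq k1 (T.cyc h2)
      subst ey
      have ez : z = v := T.uniq k2 (T.cyc (T.cyc h1))
      subst ez
      exact Or.inr ⟨s, hs, T.cyc k3, T.cyc h1⟩
  uniq := by
    rintro u v w w' (h | ⟨s, hs, h1, h2⟩) (h' | ⟨s', hs', h1', h2'⟩)
    · exact Subtype.ext (T.uniq h h')
    · exact absurd (by rw [T.uniq h h1']; exact hs') w.2
    · exact absurd (by rw [T.uniq h' h1]; exact hs) w'.2
    · have e := T.uniq h1 h1'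
      subst e
      exact Subtype.ext (T.uniq h2 h2')
  opp := fun h => adj_f3 T hn (T.adj_symm (f3_adj T h))
  ne := fun h e => T.adj_ne (f3_adj T h) (congrArg Subtype.val e)
  link := by
    rintro u v w ⟨z, hz⟩ ⟨z', hz'⟩
    have key : ∀ x : V, Relation.ReflTransGen (T.f u) v x →
        (∀ h : T.deg x ≠ 3, Relation.ReflTransGen (f3 T u) v ⟨x, h⟩) ∧
        (T.deg x = 3 → ∃ y : {v : V // T.deg v ≠ 3},
          Relation.ReflTransGen (f3 T u) v y ∧ T.f u y x) := by
      intro x hx
      induction hx with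
      | refl => exact ⟨fun _ => Relation.ReflTransGen.refl, fun h => absurd h v.2⟩
      | @tail b c _ hbc ih =>
        by_cases hb : T.deg b = 3
        · obtain ⟨y, hy, hyb⟩ := ih.2 hb
          have hc : T.deg c ≠ 3 := fun h => hn b c hb h ⟨_, T.cyc hbc⟩
          exact ⟨fun h => hy.tail (Or.inr ⟨b, hb, hyb, hbc⟩), fun h => absurd h hc⟩
        · have hy := ih.1 hb
          exact ⟨fun h => hy.tail (Or.inl hbc), fun _ => ⟨⟨b, hb⟩, hy, hbc⟩⟩
    exact (key w (T.link (f3_adj T hz) (f3_adj T hz'))).1 w.2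

theorem tri3_adj [Fintype V] (T : Tri V)
    (hn : ∀ s s', T.deg s = 3 → T.deg s' = 3 → ¬ T.Adj s s') (u v : {v : V // T.deg v ≠ 3}) :
    (tri3 T hn).Adj u v ↔ T.Adj u v :=
  ⟨fun ⟨_, h⟩ => f3_adj T h, fun h => adj_f3 T hn h⟩

theorem tri3_conn [Fintype V] (T : Tri V)
    (hn : ∀ s s', T.deg s = 3 → T.deg s' = 3 → ¬ T.Adj s s') (hc : T.graph.Connected) :
    (tri3 T hn).graph.Connected := by
  classical
  have hne : Nonempty {v : V // T.deg v ≠ 3} := by
    obtain ⟨s⟩ := hc.nonempty
    by_contra hno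
    have hall : ∀ v, T.deg v = 3 := by
      intro v
      by_contra h
      exact hno ⟨⟨v, h⟩⟩
    have h0 : ∃ v, T.Adj s v := by
      by_contra h
      have h1 : T.deg s = 0 := by
        unfold Tri.deg
        rw [Nat.card_eq_zero]
        exact Or.inl ⟨fun ⟨v, hv⟩ => h ⟨v, hv⟩⟩
      rw [hall s] at h1
      omega
    obtain ⟨v, hv⟩ := h0
    exact hn s v (hall s) (hall v) hv
  refine ⟨fun v w => ?_⟩
  have key : ∀ x : V, Relation.ReflTransGen T.graph.Adj v x →
      (∀ h : T.deg x ≠ 3, (tri3 T hn).graph.Reachable v ⟨x, h⟩) ∧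
      (T.deg x = 3 → ∀ y : {v : V // T.deg v ≠ 3}, T.Adj x y →
        (tri3 T hn).graph.Reachable v y) := by
    intro x hx
    induction hx with
    | refl => exact ⟨fun _ => SimpleGraph.Reachable.refl _, fun h => absurd h v.2⟩
    | @tail b c _ hbc ih =>
      have hbc' : T.Adj b c := hbc
      by_cases hb : T.deg b = 3
      · have hc' : T.deg c ≠ 3 := fun h => hn b c hb h hbc'
        exact ⟨fun h => ih.2 hb ⟨c, h⟩ hbc', fun h => absurd h hc'⟩
      · have hy := ih.1 hb
        refine ⟨fun h => hy.trans (SimpleGraph.Adj.reachable ?_), fun h y hy' => ?_⟩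
        · exact (tri3_adj T hn ⟨b, hb⟩ ⟨c, h⟩).2 hbc'
        · obtain ⟨y1, z1, k1, k2, k3, hN⟩ := lnk3 T h (T.adj_symm hbc')
          rcases (hN y).1 hy' with e | e | e
          · have : y = ⟨b, hb⟩ := Subtype.ext e
            rw [this]
            exact hy
          · refine hy.trans (SimpleGraph.Adj.reachable ?_)
            refine (tri3_adj T hn ⟨b, hb⟩ y).2 ?_
            rw [e]
            exact ⟨_, T.cyc k1⟩
          · refine hy.trans (SimpleGraph.Adj.reachable ?_)
            refine (tri3_adj T hn ⟨b, hb⟩ y).2 ?_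
            rw [e]
            exact T.adj_symm ⟨_, T.cyc k3⟩
  exact (key w ((SimpleGraph.reachable_iff_reflTransGen (v : V) (w : V)).1
    (hc.preconnected v w))).1 w.2

/-! ### Counting -/

theorem card_sub {α : Type} [Fintype α] (P : α → Prop) [DecidablePred P] :
    Nat.card {p : α // P p} = (Finset.univ.filter P).card := by
  rw [Nat.card_eq_fintype_card, Fintype.card_subtype]

theorem card_sub2 {α : Type} [Fintype α] (Q P : α → Prop) [DecidablePred P] [DecidablePred Q] :
    Nat.card {a : {a : α // Q a} // P a} = ((Finset.univ.filter Q).filter P).card := by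
  rw [Nat.card_congr (Equiv.subtypeSubtypeEquivSubtypeInter Q P), card_sub, Finset.filter_filter]

theorem card_pair {α : Type} [Fintype α] (R : α → α → Prop) :
    Nat.card {p : α × α // R p.1 p.2} = ∑ u, Nat.card {a : α // R u a} := by
  classical
  rw [Nat.card_congr (Equiv.subtypeProdEquivSigmaSubtype R), Nat.card_eq_fintype_card,
    Fintype.card_sigma]
  exact Finset.sum_congr rfl fun u _ => by rw [Nat.card_eq_fintype_card]

theorem rm3 : Rm3Stmt := by
  classical
  intro V _ T hc ht h5
  have hn : ∀ s s', T.deg s = 3 → T.deg s' = 3 → ¬ T.Adj s s' :=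
    fun s s' hs hs' => nadj T hc h5 hs hs'
  set W : Finset V := Finset.univ.filter (fun v => T.deg v ≠ 3) with hW
  set S : Finset V := Finset.univ.filter (fun v => T.deg v = 3) with hS
  -- degrees
  have dsplit : ∀ v, T.deg v = (W.filter (fun a => T.Adj v a)).card +
      (S.filter (fun a => T.Adj v a)).card := by
    intro v
    unfold Tri.deg
    rw [card_sub]
    rw [← Finset.card_union_of_disjoint]
    · congr 1
      ext a
      simp only [hW, hS, Finset.mem_filter, Finset.mem_univ, true_and, Finset.mem_union]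
      tauto
    · rw [Finset.disjoint_left]
      intro a h1 h2
      simp only [hW, hS, Finset.mem_filter, Finset.mem_univ, true_and] at h1 h2
      exact h1.1 h2.1
  have d' : ∀ v : {v : V // T.deg v ≠ 3}, (tri3 T hn).deg v =
      (W.filter (fun a => T.Adj v a)).card := by
    intro v
    unfold Tri.deg
    rw [← card_sub2]
    exact Nat.card_congr (Equiv.subtypeEquivRight fun a => tri3_adj T hn v a)
  have hfree : ∀ v : {v : V // T.deg v ≠ 3},
      Nat.card {a : {v : V // T.deg v ≠ 3} // ∃ b, T.deg b ≠ 3 ∧ T.f v a b} +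
        (S.filter (fun a => T.Adj v a)).card = (W.filter (fun a => T.Adj v a)).card := by
    intro v
    rw [card_sub2 (fun a => T.deg a ≠ 3) (fun a => ∃ b, T.deg b ≠ 3 ∧ T.f v a b)]
    have h1 : (S.filter (fun a => T.Adj v a)).card =
        (W.filter (fun a => ∃ b, T.deg b = 3 ∧ T.f v a b)).card := by
      symm
      refine Finset.card_bij (fun a ha => Classical.choose (Finset.mem_filter.1 ha).2) ?_ ?_ ?_
      · intro a ha
        have := Classical.choose_spec (Finset.mem_filter.1 ha).2
        simp only [hS, Finset.mem_filter, Finset.mem_univ, true_and]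
        exact ⟨this.1, f_adj T this.2⟩
      · intro a ha b hb hab
        have h1 := Classical.choose_spec (Finset.mem_filter.1 ha).2
        have h2 := Classical.choose_spec (Finset.mem_filter.1 hb).2
        rw [← hab] at h2
        exact f_inj T h1.2 h2.2
      · intro b hb
        simp only [hS, Finset.mem_filter, Finset.mem_univ, true_and] at hb
        obtain ⟨a, ha⟩ := pre_ex T hb.2
        have ha3 : T.deg a ≠ 3 := fun h => hn a b h hb.1 ⟨_, T.cyc ha⟩
        refine ⟨a, by
          simp only [hW, Finset.mem_filter, Finset.mem_univ, true_and]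
          exact ⟨ha3, b, hb.1, ha⟩, ?_⟩
        generalize_proofs pf
        exact T.uniq (Classical.choose_spec pf).2 ha
    rw [h1, ← hW, ← Finset.card_union_of_disjoint]
    · congr 1
      ext a
      simp only [Finset.mem_filter, Finset.mem_union]
      constructor
      · rintro (⟨h, b, _, hb⟩ | ⟨h, b, _, hb⟩)
        · exact ⟨h, b, hb⟩
        · exact ⟨h, b, hb⟩
      · rintro ⟨h, b, hb⟩
        by_cases h3 : T.deg b = 3
        · exact Or.inr ⟨h, b, h3, hb⟩
        · exact Or.inl ⟨h, b, h3, hb⟩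
    · rw [Finset.disjoint_left]
      intro a h2 h3
      obtain ⟨-, b, hb, hb'⟩ := Finset.mem_filter.1 h2
      obtain ⟨-, c, hc', hc''⟩ := Finset.mem_filter.1 h3
      rw [T.uniq hb' hc''] at hb
      exact hb hc'
  -- sums
  have sW : ∀ g : V → ℕ, ∑ v : {v : V // T.deg v ≠ 3}, g v = ∑ v ∈ W, g v := by
    intro g
    exact (Finset.sum_subtype W (fun x => by simp [hW]) g).symm
  have hdarts : Nat.card {p : V × V // T.Adj p.1 p.2} = ∑ v, T.deg v := card_pair T.Adj
  have hVsplit : ∀ g : V → ℕ, ∑ v, g v = ∑ v ∈ W, g v + ∑ v ∈ S, g v := by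
    intro g
    rw [hW, hS, ← Finset.sum_filter_add_sum_filter_not Finset.univ (fun v => T.deg v ≠ 3) g]
    simp
  have hSdeg : ∑ v ∈ S, T.deg v = 3 * S.card := by
    rw [Finset.sum_congr rfl (g := fun _ => 3) (fun v hv => (Finset.mem_filter.1 hv).2),
      Finset.sum_const, smul_eq_mul, mul_comm]
  have hSW : ∑ v ∈ W, (S.filter (fun a => T.Adj v a)).card = 3 * S.card := by
    have h1 := Finset.sum_card_bipartiteAbove_eq_sum_card_bipartiteBelow (s := W) (t := S)
      (r := fun a b => T.Adj a b)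
    unfold Finset.bipartiteAbove Finset.bipartiteBelow at h1
    rw [h1, ← hSdeg]
    refine Finset.sum_congr rfl fun s hs => ?_
    have hs3 : T.deg s = 3 := (Finset.mem_filter.1 hs).2
    rw [dsplit s]
    have h2 : S.filter (fun a => T.Adj s a) = ∅ := by
      rw [Finset.filter_eq_empty_iff]
      intro a ha
      exact hn s a hs3 (Finset.mem_filter.1 ha).2
    rw [h2, Finset.card_empty, add_zero]
    congr 1
    ext a
    simp only [Finset.mem_filter]
    exact ⟨fun h => ⟨h.1, T.adj_symm h.2⟩, fun h => ⟨h.1, T.adj_symm h.2⟩⟩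
  have hWdeg : ∑ v ∈ W, T.deg v = ∑ v ∈ W, (W.filter (fun a => T.Adj v a)).card + 3 * S.card := by
    rw [← hSW, ← Finset.sum_add_distrib]
    exact Finset.sum_congr rfl fun v _ => dsplit v
  have hD' : Nat.card {p : {v : V // T.deg v ≠ 3} × {v : V // T.deg v ≠ 3} //
      (tri3 T hn).Adj p.1 p.2} = ∑ v ∈ W, (W.filter (fun a => T.Adj v a)).card := by
    rw [card_pair (tri3 T hn).Adj, ← sW]
    exact Finset.sum_congr rfl fun v _ => d' v
  have hcW : Nat.card {v : V // T.deg v ≠ 3} = W.card := card_sub _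
  have hcS : Nat.card {v : V // T.deg v = 3} = S.card := card_sub _
  have hcV : Nat.card V = W.card + S.card := by
    have h1 := hVsplit (fun _ => 1)
    simp only [Finset.sum_const, smul_eq_mul, mul_one, Finset.card_univ] at h1
    rw [Nat.card_eq_fintype_card, h1]
  have hT : Nat.card {p : V × V // T.Adj p.1 p.2} + 12 = 6 * Nat.card V := ht
  rw [hdarts, hVsplit, hWdeg, hSdeg, hcV] at hT
  have hfsum : Nat.card {p : {v : V // T.deg v ≠ 3} × {v : V // T.deg v ≠ 3} //
      ∃ b, T.deg b ≠ 3 ∧ T.f p.1 p.2 b} + 3 * S.card =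
      ∑ v ∈ W, (W.filter (fun a => T.Adj v a)).card := by
    rw [card_pair (fun p q : {v : V // T.deg v ≠ 3} => ∃ b, T.deg b ≠ 3 ∧ T.f p q b), ← hSW,
      ← sW, ← sW, ← Finset.sum_add_distrib]
    exact Finset.sum_congr rfl fun v _ => hfree v
  refine ⟨tri3 T hn, tri3_conn T hn hc, ?_, fun u v w h => Or.inl h, fun v => ?_, ?_⟩
  · unfold Tri.Tight
    rw [hD', hcW]
    omega
  · have h1 := d' v
    have h2 := dsplit v
    have h3 := hfree v
    omega
  · rw [hcS, hcW]
    omega

end Pool.Agent.PDM.H25
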